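import Mathlib
import Pool.Agent.SQD.Stmts

set_option autoImplicit false

open Filter
open scoped BigOperators Topology

noncomputable section

namespace Pool.Agent.SQD.H80

/-- numerical facts for large `ℓ` -/
theorem ev_real (A : ℕ) (C : ℝ) : ∀ᶠ ℓ : ℝ in atTop, 3 ≤ ℓ ∧ 2 * ((LA A : ℕ) : ℝ) ^ 2 < ℓ ∧
    ℓ ^ (A + 3) + 2 ≤ Real.exp (ℓ ^ (1 / 16 : ℝ) / 8) ∧ 16 ≤ ℓ ^ (1 / 16 : ℝ) ∧
    Real.log 16 / 2 + Real.log (A + 4) / 2 + C + Real.log (Real.log ℓ) / 2 ≤ Real.log ℓ / 64 := by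
  have h1 : ∀ᶠ ℓ : ℝ in atTop, 3 ≤ ℓ := eventually_ge_atTop 3
  have h2 : ∀ᶠ ℓ : ℝ in atTop, 2 * ((LA A : ℕ) : ℝ) ^ 2 < ℓ := eventually_gt_atTop _
  have hs : Tendsto (fun ℓ : ℝ => ℓ ^ (1 / 16 : ℝ)) atTop atTop := tendsto_rpow_atTop (by norm_num)
  have h4 : ∀ᶠ ℓ : ℝ in atTop, 16 ≤ ℓ ^ (1 / 16 : ℝ) := hs.eventually_ge_atTop 16
  have h3 : ∀ᶠ s : ℝ in atTop, s ^ (16 * (A + 3)) + 2 ≤ Real.exp (s / 8) := by
    have ho := isLittleO_pow_exp_pos_mul_atTop (16 * (A + 3)) (b := (1 / 8 : ℝ)) (by norm_num)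
    have hb := ho.bound (c := 1 / 2) (by norm_num)
    have he : Tendsto (fun s : ℝ => Real.exp (s / 8)) atTop atTop :=
      Real.tendsto_exp_atTop.comp (tendsto_id.atTop_div_const (by norm_num))
    filter_upwards [hb, he.eventually_ge_atTop 4, eventually_ge_atTop 0] with s hs1 hs2 hs3
    rw [Real.norm_of_nonneg (by positivity), Real.norm_of_nonneg (Real.exp_pos _).le] at hs1
    have e1 : (1 / 8 : ℝ) * s = s / 8 := by ring
    rw [e1] at hs1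
    linarith
  have h3' : ∀ᶠ ℓ : ℝ in atTop, (ℓ ^ (1 / 16 : ℝ)) ^ (16 * (A + 3)) + 2 ≤
      Real.exp (ℓ ^ (1 / 16 : ℝ) / 8) := hs.eventually h3
  have h5 : ∀ᶠ u : ℝ in atTop, Real.log 16 / 2 + Real.log (A + 4) / 2 + C + Real.log u / 2 ≤ u / 64 := by
    have ho := (Real.isLittleO_log_id_atTop).bound (c := 1 / 64) (by norm_num)
    filter_upwards [ho, eventually_ge_atTop 1,
      eventually_ge_atTop (128 * (Real.log 16 / 2 + Real.log (A + 4) / 2 + C))] with u hu1 hu2 hu3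
    rw [Real.norm_of_nonneg (Real.log_nonneg hu2)] at hu1
    simp only [id] at hu1
    rw [Real.norm_of_nonneg (by linarith)] at hu1
    linarith
  have h5' : ∀ᶠ ℓ : ℝ in atTop, Real.log 16 / 2 + Real.log (A + 4) / 2 + C +
      Real.log (Real.log ℓ) / 2 ≤ Real.log ℓ / 64 := Real.tendsto_log_atTop.eventually h5
  filter_upwards [h1, h2, h3', h4, h5'] with ℓ g1 g2 g3 g4 g5
  refine ⟨g1, g2, ?_, g4, g5⟩
  have e2 : (ℓ ^ (1 / 16 : ℝ)) ^ (16 * (A + 3)) = ℓ ^ (A + 3) := by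
    rw [pow_mul, ← Real.rpow_natCast (ℓ ^ (1 / 16 : ℝ)) 16, ← Real.rpow_mul (by linarith)]
    norm_num
  rw [e2] at g3
  exact g3

/-- the facts which are needed about `w = wq A x`, `z = zq x` -/
theorem facts (A : ℕ) (C : ℝ) (x : ℕ) (ℓ : ℝ) (hℓ : ℓ = Real.log x) (g1 : 3 ≤ ℓ)
    (g2 : 2 * ((LA A : ℕ) : ℝ) ^ 2 < ℓ) (g3 : ℓ ^ (A + 3) + 2 ≤ Real.exp (ℓ ^ (1 / 16 : ℝ) / 8))
    (g4 : 16 ≤ ℓ ^ (1 / 16 : ℝ))
    (g5 : Real.log 16 / 2 + Real.log (A + 4) / 2 + C + Real.log (Real.log ℓ) / 2 ≤ Real.log ℓ / 64) :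
    2 * (LA A) ^ 2 < wq A x ∧ wq A x ≤ zq x ∧ ℓ ≤ wq A x ∧ (zq x : ℝ) ≤ Real.exp (√ℓ) ∧
    Real.log ℓ / 64 ≤ (Real.log (Real.log (zq x)) - Real.log (Real.log (wq A x))) / 2 - C := by
  have hw : ℓ ^ (A + 3) ≤ (wq A x : ℝ) := by
    unfold wq
    rw [← hℓ]
    exact Nat.le_ceil _
  have hpos : 0 ≤ ℓ ^ (A + 3) := by positivity
  have hw2 : (wq A x : ℝ) < ℓ ^ (A + 3) + 1 := by
    unfold wq
    rw [← hℓ]
    exact Nat.ceil_lt_add_one hpos
  have hz : (zq x : ℝ) ≤ Real.exp (ℓ ^ (1 / 16 : ℝ) / 8) := by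
    unfold zq
    rw [← hℓ]
    exact Nat.floor_le (Real.exp_pos _).le
  have hz2 : Real.exp (ℓ ^ (1 / 16 : ℝ) / 8) < (zq x : ℝ) + 1 := by
    unfold zq
    rw [← hℓ]
    exact Nat.lt_floor_add_one _
  have hℓw : ℓ ≤ ℓ ^ (A + 3) := le_self_pow₀ (by linarith) (by omega)
  have h1 : 2 * (LA A) ^ 2 < wq A x := by
    have : (2 * ((LA A : ℕ) : ℝ) ^ 2) < (wq A x : ℝ) := by linarith
    exact_mod_cast this
  have h2 : wq A x ≤ zq x := by
    have : (wq A x : ℝ) ≤ (zq x : ℝ) := by linarith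
    exact_mod_cast this
  refine ⟨h1, h2, hℓw.trans hw, ?_, ?_⟩
  · refine hz.trans (Real.exp_le_exp.2 ?_)
    have h3 : ℓ ^ (1 / 16 : ℝ) ≤ ℓ ^ (1 / 2 : ℝ) :=
      Real.rpow_le_rpow_of_exponent_le (by linarith) (by norm_num)
    rw [Real.sqrt_eq_rpow]
    have h4 : 0 ≤ ℓ ^ (1 / 16 : ℝ) := by positivity
    linarith
  · -- log log z
    have h5 : Real.exp (ℓ ^ (1 / 16 : ℝ) / 16) ≤ (zq x : ℝ) := by
      have h6 : Real.exp (ℓ ^ (1 / 16 : ℝ) / 8) =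
          Real.exp (ℓ ^ (1 / 16 : ℝ) / 16) * Real.exp (ℓ ^ (1 / 16 : ℝ) / 16) := by
        rw [← Real.exp_add]
        congr 1
        ring
      have h7 : 2 ≤ Real.exp (ℓ ^ (1 / 16 : ℝ) / 16) := by
        have := Real.add_one_le_exp (ℓ ^ (1 / 16 : ℝ) / 16)
        linarith
      nlinarith
    have hs0 : 0 < ℓ ^ (1 / 16 : ℝ) := by linarith
    have h8 : ℓ ^ (1 / 16 : ℝ) / 16 ≤ Real.log (zq x) := by
      rw [Real.le_log_iff_exp_le (lt_of_lt_of_le (Real.exp_pos _) h5)]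
      exact h5
    have h9 : Real.log ℓ / 16 - Real.log 16 ≤ Real.log (Real.log (zq x)) := by
      have h10 := Real.log_le_log (by positivity) h8
      rw [Real.log_div hs0.ne' (by norm_num), Real.log_rpow (by linarith)] at h10
      linarith
    -- log log w
    have hlogℓ : 1 ≤ Real.log ℓ := by
      rw [Real.le_log_iff_exp_le (by linarith)]
      have := Real.exp_one_lt_d9
      linarith
    have h11 : Real.log (wq A x) ≤ (A + 4) * Real.log ℓ := by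
      have h12 : (wq A x : ℝ) ≤ ℓ ^ (A + 4) := by
        have h13 : ℓ ^ (A + 4) = ℓ ^ (A + 3) * ℓ := pow_succ _ _
        have h14 : 1 ≤ ℓ ^ (A + 3) := one_le_pow₀ (by linarith)
        nlinarith
      have hw0 : (0 : ℝ) < wq A x := by
        have : 0 < wq A x := by omega
        exact_mod_cast this
      have h15 := Real.log_le_log hw0 h12
      rw [Real.log_pow] at h15
      push_cast at h15
      exact h15
    have h16 : Real.log (Real.log (wq A x)) ≤ Real.log (A + 4) + Real.log (Real.log ℓ) := by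
      have hw1 : 0 < Real.log (wq A x) := by
        apply Real.log_pos
        have : (3 : ℝ) ≤ wq A x := by linarith
        linarith
      have h17 := Real.log_le_log hw1 h11
      rw [Real.log_mul (by positivity) (by linarith)] at h17
      exact h17
    linarith

theorem sum_inv_le (x : ℕ) : ∑ d ∈ Finset.Icc 1 x, (1 : ℝ) / d ≤ 1 + Real.log x := by
  have h := harmonic_le_one_add_log x
  rw [harmonic_eq_sum_Icc] at h
  push_cast at h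
  refine le_trans (le_of_eq ?_) h
  refine Finset.sum_congr rfl fun d _ => ?_
  rw [one_div]

theorem cng (hSix : SixStmt) (hDvc : DvcStmt) (hLgd : LgdStmt) : CngStmt := by
  intro A
  obtain ⟨x₁, hx₁⟩ := hSix (LA A) (A + 2) (by unfold LA; omega)
  obtain ⟨C, hC⟩ := hLgd
  have hlog : Tendsto (fun x : ℕ => Real.log (x : ℝ)) atTop atTop :=
    Real.tendsto_log_atTop.comp tendsto_natCast_atTop_atTop
  obtain ⟨x₂, hx₂⟩ := eventually_atTop.1 (hlog.eventually (ev_real A C))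
  refine ⟨max x₁ x₂, fun x hx => ?_⟩
  obtain ⟨g1, g2, g3, g4, g5⟩ := hx₂ x (le_trans (le_max_right _ _) hx)
  obtain ⟨f1, f2, f3, f4, f5⟩ := facts A C x _ rfl g1 g2 g3 g4 g5
  set ℓ := Real.log (x : ℝ) with hℓ
  set w := wq A x with hw
  set z := zq x with hz
  have hℓ0 : 0 < ℓ := by linarith
  have hx0 : 1 ≤ x := by
    by_contra h
    have : x = 0 := by omega
    rw [this] at hℓ
    simp at hℓ
    linarith
  have hL1 : 1 ≤ LA A := by unfold LA; omega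
  have hL2 : 1 ≤ (LA A) ^ 2 := Nat.one_le_pow _ _ hL1
  -- for each typical `d`
  have hd : ∀ d : ℕ, 1 ≤ d → d * d ≤ x → |TT w z d| < 1 →
      (({n : ℕ | 1 ≤ n ∧ n ≤ x ∧ d ∣ n ∧ Spl (LA A) 1 d n}).ncard : ℝ) ≤
        3 * ((x : ℝ) / d) / ℓ ^ (A + 2) := by
    intro d hd1 hdx hT
    have hdx' : d ≤ x := le_trans (Nat.le_mul_self d) hdx
    have hS : ∀ q ∈ NR w z d, q.Prime ∧ w < q ∧ q ≤ z ∧ jacobiSym d q = -1 := by
      intro q hq
      unfold NR PR at hq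
      rw [Finset.mem_filter, Finset.mem_filter, Finset.mem_Ioc] at hq
      exact ⟨hq.1.2, hq.1.1.1, hq.1.1.2, hq.2⟩
    have h1 := hDvc (LA A) 1 d d x (NR w z d) hd1 (fun q hq =>
      ⟨(hS q hq).1, lt_trans f1 (hS q hq).2.1, (hS q hq).2.2.2⟩)
    have hN1 : 1 ≤ x / d := (Nat.one_le_div_iff (by omega)).2 hdx'
    have hNd : d ≤ x / d := (Nat.le_div_iff_mul_le (by omega)).2 hdx
    have hsq : √(x : ℝ) ≤ 2 * ((x / d : ℕ) : ℝ) := by
      have h3 : (x : ℝ) < ((x / d : ℕ) + 1 : ℝ) * d := by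
        have h4 : x < (x / d + 1) * d := by
          have h5 := Nat.div_add_mod x d
          have h6 := Nat.mod_lt x (show 0 < d by omega)
          nlinarith
        exact_mod_cast h4
      have h7 : (x : ℝ) ≤ (2 * ((x / d : ℕ) : ℝ)) ^ 2 := by
        have h8 : (d : ℝ) ≤ ((x / d : ℕ) : ℝ) := by exact_mod_cast hNd
        have h9 : (1 : ℝ) ≤ ((x / d : ℕ) : ℝ) := by exact_mod_cast hN1
        have h10 : (0 : ℝ) ≤ d := by positivity
        nlinarith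
      calc √(x : ℝ) ≤ √((2 * ((x / d : ℕ) : ℝ)) ^ 2) := Real.sqrt_le_sqrt h7
        _ = 2 * ((x / d : ℕ) : ℝ) := Real.sqrt_sq (by positivity)
    have hsR : (Real.log (Real.log z) - Real.log (Real.log w)) / 2 - C ≤ sR (NR w z d) :=
      hC d w z x (by omega) f2 hd1 hdx' f3 hT
    have hlogℓ : 0 ≤ Real.log ℓ := Real.log_nonneg (by linarith)
    have hbig : ((A + 2 : ℕ) : ℝ) * Real.log ℓ ≤ (LA A : ℕ) * sR (NR w z d) := by
      have h11 : Real.log ℓ / 64 ≤ sR (NR w z d) := f5.trans hsR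
      have h12 : ((LA A : ℕ) : ℝ) = 64 * (A + 3) := by unfold LA; push_cast; ring
      rw [h12]
      push_cast
      have h13 : (64 * ((A : ℝ) + 3)) * (Real.log ℓ / 64) ≤ (64 * ((A : ℝ) + 3)) * sR (NR w z d) :=
        mul_le_mul_of_nonneg_left h11 (by positivity)
      nlinarith
    have h2 := hx₁ x (x / d) z 1 d (NR w z d) (le_trans (le_max_left _ _) hx) hsq f4 (fun q hq => by
      obtain ⟨hp, hwq, hqz, hj⟩ := hS q hq
      refine ⟨hp, lt_trans f1 hwq, hqz, hp.one_lt.ne' ∘ Nat.dvd_one.1, ?_⟩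
      intro hqd
      have : Fact q.Prime := ⟨hp⟩
      have h14 : jacobiSym d q = 0 := by
        rw [jacobiSym.mod_left]
        have : ((d : ℤ) % (q : ℤ)) = 0 := Int.emod_eq_zero_of_dvd (by exact_mod_cast hqd)
        rw [this]
        exact jacobiSym.zero_left hp.one_lt
      omega) hbig
    calc (({n : ℕ | 1 ≤ n ∧ n ≤ x ∧ d ∣ n ∧ Spl (LA A) 1 d n}).ncard : ℝ)
        ≤ ((Sft (LA A) 1 d (x / d) (NR w z d)).ncard : ℝ) := by exact_mod_cast h1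
      _ ≤ 3 * ((x / d : ℕ) : ℝ) / ℓ ^ (A + 2) := h2
      _ ≤ 3 * ((x : ℝ) / d) / ℓ ^ (A + 2) := by
          apply div_le_div_of_nonneg_right _ (by positivity)
          exact mul_le_mul_of_nonneg_left Nat.cast_div_le (by norm_num)
  -- union
  set T := (Finset.Icc 1 x).filter (fun d => d * d ≤ x ∧ |TT w z d| < 1) with hTdef
  have hfin : ∀ d : ℕ, ({n : ℕ | 1 ≤ n ∧ n ≤ x ∧ d ∣ n ∧ Spl (LA A) 1 d n}).Finite := by
    intro d
    exact (Set.finite_Icc 1 x).subset fun n hn => ⟨hn.1, hn.2.1⟩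
  have hsub : {n : ℕ | 1 ≤ n ∧ n ≤ x ∧ ∃ d : ℕ, 1 ≤ d ∧ d ∣ n ∧ d * d ≤ x ∧
      |TT w z d| < 1 ∧ Spl (LA A) 1 d n} ⊆
      ⋃ d ∈ T, {n : ℕ | 1 ≤ n ∧ n ≤ x ∧ d ∣ n ∧ Spl (LA A) 1 d n} := by
    rintro n ⟨hn1, hnx, d, hd1, hdn, hdx, hT, hsp⟩
    simp only [Set.mem_iUnion]
    refine ⟨d, ?_, hn1, hnx, hdn, hsp⟩
    rw [hTdef, Finset.mem_filter, Finset.mem_Icc]
    exact ⟨⟨hd1, le_trans (Nat.le_mul_self d) hdx⟩, hdx, hT⟩
  have hcard : (({n : ℕ | 1 ≤ n ∧ n ≤ x ∧ ∃ d : ℕ, 1 ≤ d ∧ d ∣ n ∧ d * d ≤ x ∧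
      |TT w z d| < 1 ∧ Spl (LA A) 1 d n}).ncard : ℝ) ≤
      ∑ d ∈ T, (({n : ℕ | 1 ≤ n ∧ n ≤ x ∧ d ∣ n ∧ Spl (LA A) 1 d n}).ncard : ℝ) := by
    have h1 := Set.ncard_le_ncard hsub (T.finite_toSet.biUnion fun d _ => hfin d)
    have h2 := Finset.set_ncard_biUnion_le T (fun d => {n : ℕ | 1 ≤ n ∧ n ≤ x ∧ d ∣ n ∧ Spl (LA A) 1 d n})
    exact_mod_cast h1.trans h2
  refine hcard.trans ?_
  have hsum : ∑ d ∈ T, (({n : ℕ | 1 ≤ n ∧ n ≤ x ∧ d ∣ n ∧ Spl (LA A) 1 d n}).ncard : ℝ) ≤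
      ∑ d ∈ T, 3 * ((x : ℝ) / d) / ℓ ^ (A + 2) := by
    refine Finset.sum_le_sum fun d hdT => ?_
    rw [hTdef, Finset.mem_filter, Finset.mem_Icc] at hdT
    exact hd d hdT.1.1 hdT.2.1 hdT.2.2
  refine hsum.trans ?_
  have hsum2 : ∑ d ∈ T, 3 * ((x : ℝ) / d) / ℓ ^ (A + 2) ≤
      ∑ d ∈ Finset.Icc 1 x, 3 * ((x : ℝ) / d) / ℓ ^ (A + 2) :=
    Finset.sum_le_sum_of_subset_of_nonneg (Finset.filter_subset _ _) fun d _ _ => by positivity
  refine hsum2.trans ?_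
  have hsum3 : ∑ d ∈ Finset.Icc 1 x, 3 * ((x : ℝ) / d) / ℓ ^ (A + 2) =
      3 * x / ℓ ^ (A + 2) * ∑ d ∈ Finset.Icc 1 x, (1 : ℝ) / d := by
    rw [Finset.mul_sum]
    refine Finset.sum_congr rfl fun d _ => ?_
    ring
  rw [hsum3]
  have hle : ∑ d ∈ Finset.Icc 1 x, (1 : ℝ) / d ≤ 2 * ℓ := by
    have := sum_inv_le x
    linarith
  calc 3 * x / ℓ ^ (A + 2) * ∑ d ∈ Finset.Icc 1 x, (1 : ℝ) / d
      ≤ 3 * x / ℓ ^ (A + 2) * (2 * ℓ) := mul_le_mul_of_nonneg_left hle (by positivity)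
    _ = 6 * x / ℓ ^ (A + 1) := by
        rw [pow_succ ℓ (A + 1)]
        field_simp
        ring
    _ ≤ 6 * x / ℓ ^ A := by
        apply div_le_div_of_nonneg_left (by positivity) (by positivity)
        exact pow_le_pow_right₀ (by linarith) (by omega)

end Pool.Agent.SQD.H80
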